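import Pool.Agent.MP_db8016_pr.HD.All

/-! Zero-one law for directional transience of excited random walks in any dimension, when a
planar projection of the walk has constant symmetric step probabilities. -/

namespace Pool.Agent.MP_db8016_pr.Old.AxisZeroOne
open MeasureTheory ProbabilityTheory Filter Pool.Agent.MP_db8016_pr.HD

/-- `μ` is the law of the cookie environment on `ℤ^d`: `ω z e i` is the probability of the step
`step e` at the visit number `i + 1` to the site `z`. The stacks are i.i.d. and uniformly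
elliptic. The additive map `Y` sends each unit step to a unit step of `ℤ²` or to `0`, and under
every cookie the projected step is `± (1, 0)` with probability `p` each and `± (0, 1)` with
probability `q` each. `P₀` is the averaged law of the walk started at the origin, given by its
finite-dimensional distributions. -/
theorem result (d : ℕ)
    (μ : Measure ((Fin d → ℤ) → Fin d × Bool → ℕ → ℝ)) [IsProbabilityMeasure μ]
    (hind : iIndepFun (fun (z : Fin d → ℤ) (ω : (Fin d → ℤ) → Fin d × Bool → ℕ → ℝ) => ω z) μ)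
    (hid : ∀ z : Fin d → ℤ,
      IdentDistrib (fun ω : (Fin d → ℤ) → Fin d × Bool → ℕ → ℝ => ω z) (fun ω => ω 0) μ μ)
    (hsum : ∀ᵐ ω ∂μ, ∀ z i, ∑ e, ω z e i = 1)
    (κ : ℝ) (hκ : 0 < κ) (hell : ∀ᵐ ω ∂μ, ∀ z e i, κ ≤ ω z e i)
    (Y : (Fin d → ℤ) →+ ℤ × ℤ)
    (hY : ∀ e, Y (step e) ∈ ({(1, 0), (-1, 0), (0, 1), (0, -1), (0, 0)} : Set (ℤ × ℤ)))
    (p q : ℝ) (hp : 0 < p) (hq : 0 < q)
    (hpq : ∀ᵐ ω ∂μ, ∀ z i, ∑ e with Y (step e) = (1, 0), ω z e i = p ∧
      ∑ e with Y (step e) = (-1, 0), ω z e i = p ∧ ∑ e with Y (step e) = (0, 1), ω z e i = q ∧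
      ∑ e with Y (step e) = (0, -1), ω z e i = q)
    (P₀ : Measure (ℕ → Fin d → ℤ)) [IsProbabilityMeasure P₀]
    (hP₀ : ∀ (e : ℕ → Fin d × Bool) (n : ℕ), P₀ {X | ∀ i ≤ n, X i = pos e i} =
      ∫⁻ ω, ENNReal.ofReal (∏ i ∈ Finset.range n, ω (pos e i) (e i) (visits e i)) ∂μ)
    (l : Fin d → ℝ) (hl : l ≠ 0) :
    P₀ {X | Tendsto (fun n => ∑ j, (X n j : ℝ) * l j) atTop atTop} = 0 ∨
    P₀ {X | Tendsto (fun n => ∑ j, (X n j : ℝ) * l j) atTop atTop} = 1 :=
  mainG all_core all_z wt_thm law_thm d μ hind hid hsum κ hκ hell Y hY p q hp hq hpq P₀ hP₀ l hl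

end Pool.Agent.MP_db8016_pr.Old.AxisZeroOne
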